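import Pool.Agent.BES.Stmts

set_option autoImplicit false

namespace Pool.Agent.BES.H27

open Set Filter Topology MeasureTheory
open Pool.Agent.BE01 Pool.Agent.BES

theorem hct_bd (μ : ℝ) (x : En 2) : |Hf μ x| ≤ ‖x‖ ^ μ := by
  unfold Hf
  rw [abs_mul, abs_of_nonneg (Real.rpow_nonneg (norm_nonneg x) μ)]
  calc ‖x‖ ^ μ * |Real.cos (μ * Real.arccos (x 0 / ‖x‖))| ≤ ‖x‖ ^ μ * 1 :=
        mul_le_mul_of_nonneg_left (Real.abs_cos_le_one _) (Real.rpow_nonneg (norm_nonneg x) μ)
    _ = ‖x‖ ^ μ := mul_one _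

theorem hct_norm (x : En 2) : ‖sg x‖ = ‖x‖ := by
  rw [EuclideanSpace.norm_eq, EuclideanSpace.norm_eq, Fin.sum_univ_two, Fin.sum_univ_two]
  have h0 : (sg x) 0 = x 0 := rfl
  have h1 : (sg x) 1 = - x 1 := rfl
  rw [h0, h1, norm_neg]

theorem hct : HctStmt := by
  refine ⟨?_, hct_norm, ?_⟩
  · intro μ hμ
    refine ⟨?_, hct_bd μ⟩
    rw [continuous_iff_continuousAt]
    intro x
    by_cases hx : x = 0
    · rw [hx]
      have h0 : Hf μ (0 : En 2) = 0 := by
        unfold Hf
        rw [norm_zero, Real.zero_rpow hμ.ne', zero_mul]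
      have hc : Continuous fun y : En 2 => ‖y‖ ^ μ :=
        continuous_norm.rpow_const fun y => Or.inr hμ.le
      have ht : Tendsto (fun y : En 2 => ‖y‖ ^ μ) (𝓝 0) (𝓝 0) := by
        have h1 := hc.tendsto (0 : En 2)
        rwa [norm_zero, Real.zero_rpow hμ.ne'] at h1
      show Tendsto (Hf μ) (𝓝 0) (𝓝 (Hf μ 0))
      rw [h0]
      exact squeeze_zero_norm (fun y => by rw [Real.norm_eq_abs]; exact hct_bd μ y) ht
    · have hn : ‖x‖ ≠ 0 := norm_ne_zero_iff.2 hx
      have h1 : ContinuousAt (fun y : En 2 => ‖y‖ ^ μ) x :=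
        (continuous_norm.rpow_const fun y => Or.inr hμ.le).continuousAt
      have h2 : ContinuousAt (fun y : En 2 => y 0) x := by
        apply Continuous.continuousAt
        fun_prop
      have h3 : ContinuousAt (fun y : En 2 => y 0 / ‖y‖) x :=
        h2.div continuous_norm.continuousAt hn
      have h4 : ContinuousAt (fun y : En 2 => Real.arccos (y 0 / ‖y‖)) x :=
        ContinuousAt.comp (f := fun y : En 2 => y 0 / ‖y‖) (g := Real.arccos)
          Real.continuous_arccos.continuousAt h3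
      have h5 : ContinuousAt (fun y : En 2 => Real.cos (μ * Real.arccos (y 0 / ‖y‖))) x :=
        ContinuousAt.comp (f := fun y : En 2 => μ * Real.arccos (y 0 / ‖y‖)) (g := Real.cos)
          Real.continuous_cos.continuousAt (h4.const_mul μ)
      exact h1.mul h5
  · intro μ x
    unfold Hf
    rw [hct_norm]
    rfl

end Pool.Agent.BES.H27
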